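import Pool.Agent.W2helper56.PK.Stm
import Pool.Agent.H620R2.Gauge.A1
import Pool.Agent.H620R2.Gauge.A2

/-!
# `PSPACE = UP ∩ coUP` relative to the oracle with the certificates
-/

set_option autoImplicit false

namespace Pool.Agent.W2helper56.PK

open Pool.Agent.NPC Pool.Agent.H622R2 Pool.Agent.H620R2.Gauge

namespace Up

/-- the statement: the `e`-th algorithm accepts `x` -/
noncomputable def stm (e : ℕ) (x : List Bool) : List Bool :=
  pairBits (un e) (pairBits x (un ((sb e).eval x.length)))

theorem length_stm (e : ℕ) (x : List Bool) :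
    (stm e x).length = 2 * e + 1 + (2 * x.length + 1 + (sb e).eval x.length) := by
  unfold stm
  rw [A2.length_pairBits, A2.length_pairBits, List.length_replicate, List.length_replicate]
  omega

theorem tr_stm (e : ℕ) (x : List Bool) (O : Oracle) : Tr (stm e x) O ↔ AccL e O x := by
  have h1 : (unpair (stm e x)).1 = un e := by rw [stm, unpair_pairBits]
  have h2 : (unpair (stm e x)).2 = pairBits x (un ((sb e).eval x.length)) := by
    rw [stm, unpair_pairBits]
  unfold Tr
  rw [h1, h2, unpair_pairBits, List.length_replicate]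
  constructor
  · exact fun h => h.2
  · refine fun h => ⟨?_, h⟩
    rw [length_stm]
    dsimp only
    omega

theorem poly_un {α : Type} [TEnc α] {n : α → ℕ} (hn : UPoly n) : Poly (fun a => un (n a)) :=
  (NPC.Poly.map (F := fun _ _ => true) hn (NPC.Poly.const true)).congr fun x => by simp

theorem poly_stm (e : ℕ) : Poly (stm e) :=
  poly_pairBits (NPC.Poly.const _) (poly_pairBits NPC.Poly.id
    (poly_un ((UPoly.length NPC.Poly.id).eval (sb e))))

/-- the question -/
noncomputable def qu (e : ℕ) (b : Bool) (u : List Bool) : List Bool :=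
  true :: true :: pairBits (stm e (unpair u).2) (b :: (unpair u).1)

theorem poly_qu (e : ℕ) (b : Bool) : Poly (qu e b) := by
  have hx : Poly (fun y => (unpair y).1) := Poly.fst poly_unpair
  have hw : Poly (fun y => (unpair y).2) := Poly.snd poly_unpair
  exact NPC.Poly.cons (NPC.Poly.const true) (NPC.Poly.cons (NPC.Poly.const true)
    (poly_pairBits ((poly_stm e).comp hw) (NPC.Poly.cons (NPC.Poly.const b) hx)))

/-- the verifier -/
noncomputable def ver (O : Oracle) (e : ℕ) (b : Bool) (u : List Bool) : List Bool := [O (qu e b u)]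

theorem ver_fp (O : Oracle) (e : ℕ) (b : Bool) : IsFP O (ver O e b) := by
  have h := IsFP.tt (A := O) (Q := fun u => [qu e b u]) (H := fun t => t.2)
    (NPC.Poly.cons (poly_qu e b) (NPC.Poly.const [])) (Poly.snd NPC.Poly.id)
  exact h

theorem ver_iff (E R : Oracle) (e : ℕ) (b : Bool) (w x : List Bool) :
    ver (Ok E R) e b (pairBits w x) = [true] ↔
      w = crt R (stm e x) ∧ (b = true ↔ AccL e (Ok E R) x) := by
  unfold ver qu
  rw [unpair_pairBits, Ok_cert]
  simp only [List.cons.injEq, and_true]
  rw [Ck_iff]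
  constructor
  · rintro ⟨s, b', h1, h2⟩
    have h3 := congrArg unpair h1
    rw [unpair_pairBits, unpair_pairBits] at h3
    simp only [Prod.mk.injEq, List.cons.injEq] at h3
    obtain ⟨rfl, rfl, h4⟩ := h3
    exact ⟨h4, h2.trans (tr_stm e x _)⟩
  · rintro ⟨h1, h2⟩
    exact ⟨stm e x, b, by rw [h1], h2.trans (tr_stm e x _).symm⟩

theorem up (E R : Oracle) (e : ℕ) (b : Bool) :
    IsUP (Ok E R) {x | b = true ↔ AccL e (Ok E R) x} := by
  refine ⟨ver (Ok E R) e b, Polynomial.C (2 * e + 1) +
    (Polynomial.C 2 * Polynomial.X + Polynomial.C 1 + sb e), ver_fp _ e b, ?_, ?_⟩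
  · intro x w w' _ _ h1 h2
    rw [((ver_iff E R e b w x).1 h1).1, ((ver_iff E R e b w' x).1 h2).1]
  · intro x
    constructor
    · intro h
      refine ⟨crt R (stm e x), ?_, (ver_iff E R e b _ x).2 ⟨rfl, h⟩⟩
      rw [length_crt, length_stm]
      simp only [Polynomial.eval_add, Polynomial.eval_mul, Polynomial.eval_C, Polynomial.eval_X]
      exact le_rfl
    · rintro ⟨w, _, h⟩
      exact ((ver_iff E R e b w x).1 h).2

end Up

theorem p_up : P_up := by
  intro E R L hL
  obtain ⟨e, he⟩ := exists_index hL
  constructor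
  · have h := Up.up E R e true
    have h2 : {x | true = true ↔ AccL e (Ok E R) x} = L := by
      ext x
      simp [he x]
    rwa [h2] at h
  · have h := Up.up E R e false
    have h2 : {x | false = true ↔ AccL e (Ok E R) x} = Lᶜ := by
      ext x
      simp [he x]
    rwa [h2] at h

end Pool.Agent.W2helper56.PK
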